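import Mathlib

set_option autoImplicit false

namespace Pool.Agent.Results.MP_011385_al.ModularTwoGroups

/-! ## Definitions -/

/-- The relators of the presentation
`⟨a, b | a^(2^(n-1)) = b^2 = 1, b a b⁻¹ = a^(1 + 2^(n-2))⟩`,
where `a` is the generator `0` and `b` is the generator `1` of the free group of rank two. -/
def rels (n : ℕ) : Set (FreeGroup (Fin 2)) :=
  {FreeGroup.of 0 ^ (2 ^ (n - 1)), FreeGroup.of 1 ^ 2,
    FreeGroup.of 1 * FreeGroup.of 0 * (FreeGroup.of 1)⁻¹ *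
      (FreeGroup.of 0 ^ (1 + 2 ^ (n - 2)))⁻¹}

/-- The modular group `M_{2^n}` of order `2^n`, given by its presentation. -/
abbrev ModularGroup (n : ℕ) : Type := PresentedGroup (rels n)

/-- A finite group `G` of order `m` is R-sequenceable if its `m - 1` non-identity elements can be
ordered cyclically as `g 0, g 1, …, g (m - 2)` (indices modulo `m - 1`) such that the `m - 1`
quotients `(g i)⁻¹ * g (i + 1)` are pairwise distinct. -/
def RSequenceable (G : Type) [Group G] : Prop :=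
  Finite G ∧ ∃ g : ZMod (Nat.card G - 1) → G, Function.Injective g ∧ Set.range g = {x | x ≠ 1} ∧
    Function.Injective fun i => (g i)⁻¹ * g (i + 1)

/-! ## A group with the defining relations -/

section Model

variable {G : Type} [Group G] (M : ℕ) (a b : G)

lemma conj_zpow_rel (hab : b * a * b⁻¹ = a ^ (1 + 4 * M)) (x : ℤ) :
    b * a ^ x * b⁻¹ = a ^ (((1 + 4 * M : ℕ) : ℤ) * x) := by
  have h : b * a ^ x * b⁻¹ = (b * a * b⁻¹) ^ x := conj_zpow.symm
  rw [h, hab, zpow_mul, zpow_natCast]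

lemma zpow_mod (ha : a ^ (8 * M) = 1) (x c : ℤ) : a ^ (x + 8 * M * c) = a ^ x := by
  rw [zpow_add, zpow_mul]
  have : a ^ ((8 : ℤ) * M) = 1 := by
    have h : ((8 : ℤ) * M) = ((8 * M : ℕ) : ℤ) := by push_cast; ring
    rw [h, zpow_natCast, ha]
  rw [this, one_zpow, mul_one]

/-- quotient formulas -/
lemma quot_zero (i k : ℤ) (l : ℕ) :
    (a ^ i * b ^ 0)⁻¹ * (a ^ k * b ^ l) = a ^ (k - i) * b ^ l := by
  rw [pow_zero, mul_one, ← mul_assoc, ← zpow_neg, ← zpow_add]
  congr 2
  ring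

lemma quot_one (hb : b * b = 1) (hab : b * a * b⁻¹ = a ^ (1 + 4 * M)) (i k : ℤ) (l l' : ℕ)
    (hl : l + l' = 1) :
    (a ^ i * b ^ 1)⁻¹ * (a ^ k * b ^ l) = a ^ (((1 + 4 * M : ℕ) : ℤ) * (k - i)) * b ^ l' := by
  have hbinv : b⁻¹ = b := inv_eq_of_mul_eq_one_left hb
  have h1 := conj_zpow_rel M a b hab (k - i)
  rw [← h1, pow_one, mul_inv_rev, hbinv, zpow_sub]
  have hl' : b ^ l = b * b ^ l' := by
    rcases Nat.eq_zero_or_pos l with h | h
    · have : l' = 1 := by omega
      rw [h, this, pow_zero, pow_one, hb]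
    · have h2 : l = 1 := by omega
      have h3 : l' = 0 := by omega
      rw [h2, h3, pow_zero, pow_one, mul_one]
  rw [hl']
  have : (a ^ i)⁻¹ * (a ^ k * (b * b ^ l')) = a ^ k * (a ^ i)⁻¹ * (b * b ^ l') := by
    have hc : (a ^ i)⁻¹ * a ^ k = a ^ k * (a ^ i)⁻¹ := by
      rw [← zpow_neg, ← zpow_add, ← zpow_add, add_comm]
    rw [← mul_assoc, hc]
  simp only [mul_assoc] at this ⊢
  rw [this]

lemma twist_even (ha : a ^ (8 * M) = 1) (d : ℤ) (hd : d % 2 = 0) :
    a ^ (((1 + 4 * M : ℕ) : ℤ) * d) = a ^ d := by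
  obtain ⟨e, rfl⟩ : ∃ e, d = 2 * e := ⟨d / 2, by omega⟩
  have : ((1 + 4 * M : ℕ) : ℤ) * (2 * e) = 2 * e + 8 * M * e := by push_cast; ring
  rw [this, zpow_mod M a ha]

lemma twist_odd (ha : a ^ (8 * M) = 1) (d : ℤ) (hd : d % 2 = 1) :
    a ^ (((1 + 4 * M : ℕ) : ℤ) * d) = a ^ (d + 4 * M) := by
  obtain ⟨e, rfl⟩ : ∃ e, d = 2 * e + 1 := ⟨d / 2, by omega⟩
  have : ((1 + 4 * M : ℕ) : ℤ) * (2 * e + 1) = (2 * e + 1 + 4 * M) + 8 * M * e := by
    push_cast; ring
  rw [this, zpow_mod M a ha]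

/-- The pair `(i, j)` occurs (modulo `8 M` in the first entry) as an entry of the table `F`. -/
def Occurs (F : ℕ → ℤ × ℕ) (M : ℕ) (i : ℤ) (j : ℕ) : Prop :=
  ∃ t : ℕ, t < 16 * M - 1 ∧ ∃ c : ℤ, (F t).1 = i + 8 * M * c ∧ (F t).2 = j

/-- The pair `(i, j)` occurs as a quotient of consecutive entries of the table `F`. -/
def OccursQuot (F : ℕ → ℤ × ℕ) (M : ℕ) (i : ℤ) (j : ℕ) : Prop :=
  ∃ t : ℕ, t < 16 * M - 1 ∧ ∃ c : ℤ,
    ((F t).2 = 0 ∧ (F (t + 1)).1 - (F t).1 = i + 8 * M * c ∧ (F (t + 1)).2 = j) ∨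
    ((F t).2 = 1 ∧ ((F (t + 1)).1 - (F t).1) % 2 = 0 ∧
      (F (t + 1)).1 - (F t).1 = i + 8 * M * c ∧ (F (t + 1)).2 + j = 1) ∨
    ((F t).2 = 1 ∧ ((F (t + 1)).1 - (F t).1) % 2 = 1 ∧
      (F (t + 1)).1 - (F t).1 + 4 * M = i + 8 * M * c ∧ (F (t + 1)).2 + j = 1)

/-- The combinatorial criterion. -/
lemma rseq_of_table (hM : 1 ≤ M) (ha : a ^ (8 * M) = 1) (hb : b * b = 1)
    (hab : b * a * b⁻¹ = a ^ (1 + 4 * M)) (hcard : Nat.card G = 16 * M)
    (hgen : ∀ x : G, ∃ i j : ℕ, i < 8 * M ∧ j < 2 ∧ x = a ^ (i : ℤ) * b ^ j)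
    (F : ℕ → ℤ × ℕ) (hlast : F (16 * M - 1) = F 0)
    (H1 : ∀ i j : ℕ, i < 8 * M → j < 2 → (i ≠ 0 ∨ j ≠ 0) → Occurs F M i j)
    (H2 : ∀ i j : ℕ, i < 8 * M → j < 2 → (i ≠ 0 ∨ j ≠ 0) → OccursQuot F M i j) :
    RSequenceable G := by
  have hfin : Finite G := Nat.finite_of_card_ne_zero (by omega)
  refine ⟨hfin, ?_⟩
  obtain ⟨m, hm⟩ : ∃ m, m + 2 = 16 * M := ⟨16 * M - 2, by omega⟩
  have hcm : Nat.card G - 1 = m + 1 := by omega
  rw [hcm]
  let g : ZMod (m + 1) → G := fun i => a ^ (F i.val).1 * b ^ (F i.val).2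
  have hg1 : ∀ i : ZMod (m + 1), g (i + 1) = a ^ (F (i.val + 1)).1 * b ^ (F (i.val + 1)).2 := by
    intro i
    simp only [g]
    by_cases h : i.val + 1 < m + 1
    · have hv : (i + 1).val = i.val + 1 := by
        rw [ZMod.val_add, ZMod.val_one'' (by omega), Nat.mod_eq_of_lt h]
      rw [hv]
    · have hlt := ZMod.val_lt i
      have he : i.val + 1 = m + 1 := by omega
      have hv : (i + 1).val = 0 := by
        rw [ZMod.val_add, ZMod.val_one'' (by omega), he, Nat.mod_self]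
      rw [hv, he]
      have h16 : 16 * M - 1 = m + 1 := by omega
      rw [h16] at hlast
      rw [hlast]
  -- surjectivity onto the non-identity elements
  have hs1 : ∀ x : G, x ≠ 1 → ∃ i, g i = x := by
    intro x hx
    obtain ⟨i, j, hi, hj, rfl⟩ := hgen x
    have hne : i ≠ 0 ∨ j ≠ 0 := by
      by_contra hcon
      push Not at hcon
      apply hx
      rw [hcon.1, hcon.2]; simp
    obtain ⟨t, ht, c, h1, h2⟩ := H1 i j hi hj hne
    refine ⟨(t : ZMod (m + 1)), ?_⟩
    have hv : ((t : ZMod (m + 1))).val = t := ZMod.val_natCast_of_lt (by omega)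
    simp only [g]
    rw [hv, h1, h2, zpow_mod M a ha]
  have hs2 : ∀ x : G, x ≠ 1 → ∃ i, (g i)⁻¹ * g (i + 1) = x := by
    intro x hx
    obtain ⟨i, j, hi, hj, rfl⟩ := hgen x
    have hne : i ≠ 0 ∨ j ≠ 0 := by
      by_contra hcon
      push Not at hcon
      apply hx
      rw [hcon.1, hcon.2]; simp
    obtain ⟨t, ht, c, hc⟩ := H2 i j hi hj hne
    refine ⟨(t : ZMod (m + 1)), ?_⟩
    have hv : ((t : ZMod (m + 1))).val = t := ZMod.val_natCast_of_lt (by omega)
    rw [hg1]
    simp only [g]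
    rw [hv]
    rcases hc with ⟨e1, e2, e3⟩ | ⟨e1, e2, e3, e4⟩ | ⟨e1, e2, e3, e4⟩
    · rw [e1, quot_zero, e2, e3, zpow_mod M a ha]
    · rw [e1, quot_one M a b hb hab _ _ _ _ e4, twist_even M a ha _ e2, e3, zpow_mod M a ha]
    · rw [e1, quot_one M a b hb hab _ _ _ _ e4, twist_odd M a ha _ e2, e3, zpow_mod M a ha]
  -- counting
  have key : ∀ f : ZMod (m + 1) → G, (∀ x : G, x ≠ 1 → ∃ i, f i = x) →
      Function.Injective f ∧ Set.range f = {x | x ≠ 1} := by
    intro f hf
    classical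
    have : Fintype G := Fintype.ofFinite G
    have hcG : Fintype.card G = m + 2 := by rw [← Nat.card_eq_fintype_card, hcard, hm]
    have hsub : (Finset.univ.erase (1 : G)) ⊆ Finset.univ.image f := by
      intro x hx
      rw [Finset.mem_erase] at hx
      obtain ⟨i, hi⟩ := hf x hx.1
      exact Finset.mem_image.mpr ⟨i, Finset.mem_univ _, hi⟩
    have hce : (Finset.univ.erase (1 : G)).card = m + 1 := by
      rw [Finset.card_erase_of_mem (Finset.mem_univ _), Finset.card_univ, hcG]; rfl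
    have hci : (Finset.univ.image f).card ≤ m + 1 := by
      refine Finset.card_image_le.trans ?_
      rw [Finset.card_univ, ZMod.card]
    have heq : Finset.univ.erase (1 : G) = Finset.univ.image f :=
      Finset.eq_of_subset_of_card_le hsub (by rw [hce]; exact hci)
    refine ⟨?_, ?_⟩
    · have : (Finset.univ.image f).card = (Finset.univ : Finset (ZMod (m + 1))).card := by
        rw [← heq, hce, Finset.card_univ, ZMod.card]
      have hinj := Finset.card_image_iff.mp this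
      intro x y hxy
      exact hinj (Finset.mem_coe.mpr (Finset.mem_univ _)) (Finset.mem_coe.mpr (Finset.mem_univ _)) hxy
    · ext x
      simp only [Set.mem_range, Set.mem_ofPred_eq]
      have h2 : x ∈ Finset.univ.erase (1 : G) ↔ x ∈ Finset.univ.image f := by rw [heq]
      rw [Finset.mem_erase, Finset.mem_image] at h2
      simp only [Finset.mem_univ, and_true, true_and] at h2
      exact h2.symm
  exact ⟨g, (key g hs1).1, (key g hs1).2, (key _ hs2).1⟩

end Model

/-! ## The sequence for even `M = 2^(n-4)` -/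

/-- The `t`-th element `a^i * b^j` of the sequence, as the pair `(i, j)`. -/
def F (M t : ℕ) : ℤ × ℕ :=
  if t < 2 * M - 2 then
    (if t % 2 = 0 then (3 * M - 2 - (t / 2 : ℕ), 1)
      else (5 * M + (t / 2 : ℕ), 1))
  else if t = 2 * M - 2 then (2 * M - 1, 1)
  else if t = 2 * M - 1 then (M, 0)
  else if t = 2 * M then (5 * M, 0)
  else if t = 2 * M + 1 then (7 * M, 0)
  else if t = 2 * M + 2 then (7 * M - 1, 0)
  else if t = 2 * M + 3 then (7 * M + 1, 0)
  else if t < 4 * M + 1 then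
    (if t % 2 = 0 then (7 * M - 2 - ((t - 2 * M - 4) / 2 : ℕ), 0)
      else (7 * M + 2 + ((t - 2 * M - 5) / 2 : ℕ), 0))
  else if t < 6 * M - 1 then
    (if t % 2 = 1 then (1 + ((t - 4 * M - 1) / 2 : ℕ), 0)
      else (6 * M - 1 - ((t - 4 * M - 2) / 2 : ℕ), 0))
  else if t = 6 * M - 1 then (6 * M - 1, 1)
  else if t = 6 * M then (6 * M, 1)
  else if t = 6 * M + 1 then (4 * M - 1, 1)
  else if t = 6 * M + 2 then (5 * M - 1, 0)
  else if t < 14 * M - 1 then
    (if t % 2 = 1 then (6 * M + 1 + ((t - 6 * M - 3) / 2 : ℕ), 1)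
      else (5 * M - 2 - ((t - 6 * M - 4) / 2 : ℕ), 0))
  else if t < 16 * M - 2 then
    (if t % 2 = 1 then (4 * M + ((t + 1 - 14 * M) / 2 : ℕ), 1)
      else (4 * M - 2 - ((t - 14 * M) / 2 : ℕ), 1))
  else if t = 16 * M - 2 then (3 * M - 1, 1)
  else (3 * M - 2, 1)

lemma v1e (M k : ℕ) (hk : 1 ≤ k) (hM : M = 2 * k) (u : ℕ) (hu : u + 2 ≤ M) :
    F M (2 * u) = ((3 * M - 2 - u : ℤ), 1) := by
  unfold F
  rw [if_pos (by omega), if_pos (by omega)]
  refine Prod.ext ?_ rfl
  simp only []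
  omega

lemma v1o (M k : ℕ) (hk : 1 ≤ k) (hM : M = 2 * k) (u : ℕ) (hu : u + 2 ≤ M) :
    F M (2 * u + 1) = ((5 * M + u : ℤ), 1) := by
  unfold F
  rw [if_pos (by omega), if_neg (by omega)]
  refine Prod.ext ?_ rfl
  simp only []
  omega

lemma v2 (M k : ℕ) (hk : 1 ≤ k) (hM : M = 2 * k) :
    F M (2 * M - 2) = ((2 * M - 1 : ℤ), 1) := by
  unfold F
  rw [if_neg (by omega), if_pos (by omega)]

lemma v3 (M k : ℕ) (hk : 1 ≤ k) (hM : M = 2 * k) :
    F M (2 * M - 1) = ((M : ℤ), 0) := by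
  unfold F
  rw [if_neg (by omega), if_neg (by omega), if_pos (by omega)]

lemma v4 (M k : ℕ) (hk : 1 ≤ k) (hM : M = 2 * k) :
    F M (2 * M) = ((5 * M : ℤ), 0) := by
  unfold F
  rw [if_neg (by omega), if_neg (by omega), if_neg (by omega), if_pos (by omega)]

lemma v5 (M k : ℕ) (hk : 1 ≤ k) (hM : M = 2 * k) :
    F M (2 * M + 1) = ((7 * M : ℤ), 0) := by
  unfold F
  rw [if_neg (by omega), if_neg (by omega), if_neg (by omega), if_neg (by omega),
    if_pos (by omega)]

lemma v6 (M k : ℕ) (hk : 1 ≤ k) (hM : M = 2 * k) :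
    F M (2 * M + 2) = ((7 * M - 1 : ℤ), 0) := by
  unfold F
  rw [if_neg (by omega), if_neg (by omega), if_neg (by omega), if_neg (by omega),
    if_neg (by omega), if_pos (by omega)]

lemma v7 (M k : ℕ) (hk : 1 ≤ k) (hM : M = 2 * k) :
    F M (2 * M + 3) = ((7 * M + 1 : ℤ), 0) := by
  unfold F
  rw [if_neg (by omega), if_neg (by omega), if_neg (by omega), if_neg (by omega),
    if_neg (by omega), if_neg (by omega), if_pos (by omega)]

lemma v8e (M k : ℕ) (hk : 1 ≤ k) (hM : M = 2 * k) (u : ℕ) (hu : u + 2 ≤ M) :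
    F M (2 * M + 4 + 2 * u) = ((7 * M - 2 - u : ℤ), 0) := by
  unfold F
  rw [if_neg (by omega), if_neg (by omega), if_neg (by omega), if_neg (by omega),
    if_neg (by omega), if_neg (by omega), if_neg (by omega), if_pos (by omega), if_pos (by omega)]
  refine Prod.ext ?_ rfl
  simp only []
  omega

lemma v8o (M k : ℕ) (hk : 1 ≤ k) (hM : M = 2 * k) (u : ℕ) (hu : u + 3 ≤ M) :
    F M (2 * M + 5 + 2 * u) = ((7 * M + 2 + u : ℤ), 0) := by
  unfold F
  rw [if_neg (by omega), if_neg (by omega), if_neg (by omega), if_neg (by omega),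
    if_neg (by omega), if_neg (by omega), if_neg (by omega), if_pos (by omega), if_neg (by omega)]
  refine Prod.ext ?_ rfl
  simp only []
  omega

lemma v9e (M k : ℕ) (hk : 1 ≤ k) (hM : M = 2 * k) (u : ℕ) (hu : u + 2 ≤ M) :
    F M (4 * M + 1 + 2 * u) = ((1 + u : ℤ), 0) := by
  unfold F
  rw [if_neg (by omega), if_neg (by omega), if_neg (by omega), if_neg (by omega),
    if_neg (by omega), if_neg (by omega), if_neg (by omega), if_neg (by omega),
    if_pos (by omega), if_pos (by omega)]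
  refine Prod.ext ?_ rfl
  simp only []
  omega

lemma v9o (M k : ℕ) (hk : 1 ≤ k) (hM : M = 2 * k) (u : ℕ) (hu : u + 2 ≤ M) :
    F M (4 * M + 2 + 2 * u) = ((6 * M - 1 - u : ℤ), 0) := by
  unfold F
  rw [if_neg (by omega), if_neg (by omega), if_neg (by omega), if_neg (by omega),
    if_neg (by omega), if_neg (by omega), if_neg (by omega), if_neg (by omega),
    if_pos (by omega), if_neg (by omega)]
  refine Prod.ext ?_ rfl
  simp only []
  omega

lemma v10 (M k : ℕ) (hk : 1 ≤ k) (hM : M = 2 * k) :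
    F M (6 * M - 1) = ((6 * M - 1 : ℤ), 1) := by
  unfold F
  rw [if_neg (by omega), if_neg (by omega), if_neg (by omega), if_neg (by omega),
    if_neg (by omega), if_neg (by omega), if_neg (by omega), if_neg (by omega),
    if_neg (by omega), if_pos (by omega)]

lemma v11 (M k : ℕ) (hk : 1 ≤ k) (hM : M = 2 * k) :
    F M (6 * M) = ((6 * M : ℤ), 1) := by
  unfold F
  rw [if_neg (by omega), if_neg (by omega), if_neg (by omega), if_neg (by omega),
    if_neg (by omega), if_neg (by omega), if_neg (by omega), if_neg (by omega),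
    if_neg (by omega), if_neg (by omega), if_pos (by omega)]

lemma v12 (M k : ℕ) (hk : 1 ≤ k) (hM : M = 2 * k) :
    F M (6 * M + 1) = ((4 * M - 1 : ℤ), 1) := by
  unfold F
  rw [if_neg (by omega), if_neg (by omega), if_neg (by omega), if_neg (by omega),
    if_neg (by omega), if_neg (by omega), if_neg (by omega), if_neg (by omega),
    if_neg (by omega), if_neg (by omega), if_neg (by omega), if_pos (by omega)]

lemma v13 (M k : ℕ) (hk : 1 ≤ k) (hM : M = 2 * k) :
    F M (6 * M + 2) = ((5 * M - 1 : ℤ), 0) := by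
  unfold F
  rw [if_neg (by omega), if_neg (by omega), if_neg (by omega), if_neg (by omega),
    if_neg (by omega), if_neg (by omega), if_neg (by omega), if_neg (by omega),
    if_neg (by omega), if_neg (by omega), if_neg (by omega), if_neg (by omega), if_pos (by omega)]

lemma v14e (M k : ℕ) (hk : 1 ≤ k) (hM : M = 2 * k) (u : ℕ) (hu : u + 3 ≤ 4 * M) :
    F M (6 * M + 3 + 2 * u) = ((6 * M + 1 + u : ℤ), 1) := by
  unfold F
  rw [if_neg (by omega), if_neg (by omega), if_neg (by omega), if_neg (by omega),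
    if_neg (by omega), if_neg (by omega), if_neg (by omega), if_neg (by omega),
    if_neg (by omega), if_neg (by omega), if_neg (by omega), if_neg (by omega),
    if_neg (by omega), if_pos (by omega), if_pos (by omega)]
  refine Prod.ext ?_ rfl
  simp only []
  omega

lemma v14o (M k : ℕ) (hk : 1 ≤ k) (hM : M = 2 * k) (u : ℕ) (hu : u + 3 ≤ 4 * M) :
    F M (6 * M + 4 + 2 * u) = ((5 * M - 2 - u : ℤ), 0) := by
  unfold F
  rw [if_neg (by omega), if_neg (by omega), if_neg (by omega), if_neg (by omega),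
    if_neg (by omega), if_neg (by omega), if_neg (by omega), if_neg (by omega),
    if_neg (by omega), if_neg (by omega), if_neg (by omega), if_neg (by omega),
    if_neg (by omega), if_pos (by omega), if_neg (by omega)]
  refine Prod.ext ?_ rfl
  simp only []
  omega

lemma v15e (M k : ℕ) (hk : 1 ≤ k) (hM : M = 2 * k) (u : ℕ) (hu : u + 1 ≤ M) :
    F M (14 * M - 1 + 2 * u) = ((4 * M + u : ℤ), 1) := by
  unfold F
  rw [if_neg (by omega), if_neg (by omega), if_neg (by omega), if_neg (by omega),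
    if_neg (by omega), if_neg (by omega), if_neg (by omega), if_neg (by omega),
    if_neg (by omega), if_neg (by omega), if_neg (by omega), if_neg (by omega),
    if_neg (by omega), if_neg (by omega), if_pos (by omega), if_pos (by omega)]
  refine Prod.ext ?_ rfl
  simp only []
  omega

lemma v15o (M k : ℕ) (hk : 1 ≤ k) (hM : M = 2 * k) (u : ℕ) (hu : u + 2 ≤ M) :
    F M (14 * M + 2 * u) = ((4 * M - 2 - u : ℤ), 1) := by
  unfold F
  rw [if_neg (by omega), if_neg (by omega), if_neg (by omega), if_neg (by omega),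
    if_neg (by omega), if_neg (by omega), if_neg (by omega), if_neg (by omega),
    if_neg (by omega), if_neg (by omega), if_neg (by omega), if_neg (by omega),
    if_neg (by omega), if_neg (by omega), if_pos (by omega), if_neg (by omega)]
  refine Prod.ext ?_ rfl
  simp only []
  omega

lemma v16 (M k : ℕ) (hk : 1 ≤ k) (hM : M = 2 * k) :
    F M (16 * M - 2) = ((3 * M - 1 : ℤ), 1) := by
  unfold F
  rw [if_neg (by omega), if_neg (by omega), if_neg (by omega), if_neg (by omega),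
    if_neg (by omega), if_neg (by omega), if_neg (by omega), if_neg (by omega),
    if_neg (by omega), if_neg (by omega), if_neg (by omega), if_neg (by omega),
    if_neg (by omega), if_neg (by omega), if_neg (by omega), if_pos (by omega)]

lemma v17 (M k : ℕ) (hk : 1 ≤ k) (hM : M = 2 * k) :
    F M (16 * M - 1) = ((3 * M - 2 : ℤ), 1) := by
  unfold F
  rw [if_neg (by omega), if_neg (by omega), if_neg (by omega), if_neg (by omega),
    if_neg (by omega), if_neg (by omega), if_neg (by omega), if_neg (by omega),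
    if_neg (by omega), if_neg (by omega), if_neg (by omega), if_neg (by omega),
    if_neg (by omega), if_neg (by omega), if_neg (by omega), if_neg (by omega)]


lemma occ {M t j : ℕ} {i x : ℤ} (e : F M t = (x, j)) (c : ℤ) (ht : t < 16 * M - 1)
    (h : x = i + 8 * M * c) : Occurs (F M) M i j :=
  ⟨t, ht, c, by rw [e]; exact h, by rw [e]⟩

lemma qA {M t t' j : ℕ} {i x y : ℤ} (e1 : F M t = (x, 0)) (e2 : F M t' = (y, j)) (c : ℤ)
    (ht : t < 16 * M - 1) (ht' : t' = t + 1) (h : y - x = i + 8 * M * c) : OccursQuot (F M) M i j := by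
  subst ht'
  refine ⟨t, ht, c, Or.inl ⟨by rw [e1], by rw [e1, e2]; exact h, by rw [e2]⟩⟩

lemma qB {M t t' j l : ℕ} {i x y : ℤ} (e1 : F M t = (x, 1)) (e2 : F M t' = (y, l)) (c : ℤ)
    (ht : t < 16 * M - 1) (ht' : t' = t + 1) (hl : l + j = 1) (hp : (y - x) % 2 = 0)
    (h : y - x = i + 8 * M * c) : OccursQuot (F M) M i j := by
  subst ht'
  refine ⟨t, ht, c, Or.inr (Or.inl ⟨by rw [e1], ?_, ?_, ?_⟩)⟩
  · rw [e1, e2]; exact hp
  · rw [e1, e2]; exact h
  · rw [e2]; exact hl

lemma qC {M t t' j l : ℕ} {i x y : ℤ} (e1 : F M t = (x, 1)) (e2 : F M t' = (y, l)) (c : ℤ)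
    (ht : t < 16 * M - 1) (ht' : t' = t + 1) (hl : l + j = 1) (hp : (y - x) % 2 = 1)
    (h : y - x + 4 * M = i + 8 * M * c) : OccursQuot (F M) M i j := by
  subst ht'
  refine ⟨t, ht, c, Or.inr (Or.inr ⟨by rw [e1], ?_, ?_, ?_⟩)⟩
  · rw [e1, e2]; exact hp
  · rw [e1, e2]; exact h
  · rw [e2]; exact hl

/-- Every non-identity element occurs. -/
lemma table_elements (M k : ℕ) (hk : 1 ≤ k) (hM : M = 2 * k) (i j : ℕ)
    (hi : i < 8 * M) (hj : j < 2) (hne : i ≠ 0 ∨ j ≠ 0) : Occurs (F M) M i j := by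
  obtain rfl | rfl : j = 1 ∨ j = 0 := by omega
  · rcases (by omega : i ≤ 2 * M - 2 ∨ i = 2 * M - 1 ∨ (2 * M ≤ i ∧ i ≤ 3 * M - 2) ∨
      i = 3 * M - 1 ∨ (3 * M ≤ i ∧ i ≤ 4 * M - 2) ∨ i = 4 * M - 1 ∨
      (4 * M ≤ i ∧ i ≤ 5 * M - 1) ∨ (5 * M ≤ i ∧ i ≤ 6 * M - 2) ∨ i = 6 * M - 1 ∨
      i = 6 * M ∨ (6 * M + 1 ≤ i)) with h | h | h | h | h | h | h | h | h | h | h
    · exact occ (v14e M k hk hM (i + 2 * M - 1) (by omega)) 1 (by omega) (by omega)
    · exact occ (v2 M k hk hM) 0 (by omega) (by omega)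
    · exact occ (v1e M k hk hM (3 * M - 2 - i) (by omega)) 0 (by omega) (by omega)
    · exact occ (v16 M k hk hM) 0 (by omega) (by omega)
    · exact occ (v15o M k hk hM (4 * M - 2 - i) (by omega)) 0 (by omega) (by omega)
    · exact occ (v12 M k hk hM) 0 (by omega) (by omega)
    · exact occ (v15e M k hk hM (i - 4 * M) (by omega)) 0 (by omega) (by omega)
    · exact occ (v1o M k hk hM (i - 5 * M) (by omega)) 0 (by omega) (by omega)
    · exact occ (v10 M k hk hM) 0 (by omega) (by omega)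
    · exact occ (v11 M k hk hM) 0 (by omega) (by omega)
    · exact occ (v14e M k hk hM (i - 6 * M - 1) (by omega)) 0 (by omega) (by omega)
  · have hi1 : 1 ≤ i := by omega
    rcases (by omega : i ≤ M - 1 ∨ i = M ∨ (M + 1 ≤ i ∧ i ≤ 5 * M - 2) ∨ i = 5 * M - 1 ∨
      i = 5 * M ∨ (5 * M + 1 ≤ i ∧ i ≤ 6 * M - 1) ∨ (6 * M ≤ i ∧ i ≤ 7 * M - 2) ∨
      i = 7 * M - 1 ∨ i = 7 * M ∨ i = 7 * M + 1 ∨ 7 * M + 2 ≤ i)
      with h | h | h | h | h | h | h | h | h | h | h
    · exact occ (v9e M k hk hM (i - 1) (by omega)) 0 (by omega) (by omega)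
    · exact occ (v3 M k hk hM) 0 (by omega) (by omega)
    · exact occ (v14o M k hk hM (5 * M - 2 - i) (by omega)) 0 (by omega) (by omega)
    · exact occ (v13 M k hk hM) 0 (by omega) (by omega)
    · exact occ (v4 M k hk hM) 0 (by omega) (by omega)
    · exact occ (v9o M k hk hM (6 * M - 1 - i) (by omega)) 0 (by omega) (by omega)
    · exact occ (v8e M k hk hM (7 * M - 2 - i) (by omega)) 0 (by omega) (by omega)
    · exact occ (v6 M k hk hM) 0 (by omega) (by omega)
    · exact occ (v5 M k hk hM) 0 (by omega) (by omega)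
    · exact occ (v7 M k hk hM) 0 (by omega) (by omega)
    · exact occ (v8o M k hk hM (i - 7 * M - 2) (by omega)) 0 (by omega) (by omega)

/-- Every non-identity element occurs as a quotient. -/
lemma table_quotients (M k : ℕ) (hk : 1 ≤ k) (hM : M = 2 * k) (i j : ℕ)
    (hi : i < 8 * M) (hj : j < 2) (hne : i ≠ 0 ∨ j ≠ 0) : OccursQuot (F M) M i j := by
  obtain rfl | rfl : j = 0 ∨ j = 1 := by omega
  · have hi1 : 1 ≤ i := by omega
    rcases Nat.even_or_odd' i with ⟨w, rfl | rfl⟩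
    · rcases (by omega : 2 * w = 2 ∨ (4 ≤ 2 * w ∧ 2 * w ≤ 2 * M - 2) ∨ 2 * w = 2 * M ∨
        (2 * M + 2 ≤ 2 * w ∧ 2 * w ≤ 4 * M - 2) ∨ 2 * w = 4 * M ∨
        (4 * M + 2 ≤ 2 * w ∧ 2 * w ≤ 6 * M - 2) ∨ 2 * w = 6 * M ∨ 6 * M + 2 ≤ 2 * w)
        with h | h | h | h | h | h | h | h
      · exact qA (v6 M k hk hM) (v7 M k hk hM) 0 (by omega) (by omega) (by omega)
      · exact qA (v8e M k hk hM (w - 2) (by omega)) (v8o M k hk hM (w - 2) (by omega)) 0
          (by omega) (by omega) (by omega)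
      · exact qA (v4 M k hk hM) (v5 M k hk hM) 0 (by omega) (by omega) (by omega)
      · exact qB (v1e M k hk hM (w - M - 1) (by omega)) (v1o M k hk hM (w - M - 1) (by omega)) 0
          (by omega) (by omega) (by omega) (by omega) (by omega)
      · exact qA (v3 M k hk hM) (v4 M k hk hM) 0 (by omega) (by omega) (by omega)
      · exact qA (v9e M k hk hM (3 * M - 1 - w) (by omega))
          (v9o M k hk hM (3 * M - 1 - w) (by omega)) 0 (by omega) (by omega) (by omega)
      · exact qB (v15e M k hk hM (M - 1) (by omega)) (v16 M k hk hM) (-1)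
          (by omega) (by omega) (by omega) (by omega) (by omega)
      · exact qB (v15e M k hk hM (4 * M - 1 - w) (by omega))
          (v15o M k hk hM (4 * M - 1 - w) (by omega)) (-1)
          (by omega) (by omega) (by omega) (by omega) (by omega)
    · rcases (by omega : 2 * w + 1 = 1 ∨ (3 ≤ 2 * w + 1 ∧ 2 * w + 1 ≤ 2 * M - 3) ∨
        2 * w + 1 = 2 * M - 1 ∨ 2 * w + 1 = 2 * M + 1 ∨
        (2 * M + 3 ≤ 2 * w + 1 ∧ 2 * w + 1 ≤ 4 * M - 3) ∨ 2 * w + 1 = 4 * M - 1 ∨
        2 * w + 1 = 4 * M + 1 ∨ (4 * M + 3 ≤ 2 * w + 1 ∧ 2 * w + 1 ≤ 6 * M - 1) ∨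
        (6 * M + 1 ≤ 2 * w + 1 ∧ 2 * w + 1 ≤ 8 * M - 5) ∨ 2 * w + 1 = 8 * M - 3 ∨
        2 * w + 1 = 8 * M - 1)
        with h | h | h | h | h | h | h | h | h | h | h
      · exact qC (v1o M k hk hM (M - 2) (by omega)) (v2 M k hk hM) 0
          (by omega) (by omega) (by omega) (by omega) (by omega)
      · exact qC (v1o M k hk hM (M - 2 - w) (by omega))
          (v1e M k hk hM (M - 2 - w + 1) (by omega)) 0
          (by omega) (by omega) (by omega) (by omega) (by omega)
      · exact qC (v11 M k hk hM) (v12 M k hk hM) 0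
          (by omega) (by omega) (by omega) (by omega) (by omega)
      · exact qA (v8e M k hk hM (M - 2) (by omega)) (v9e M k hk hM 0 (by omega)) (-1)
          (by omega) (by omega) (by omega)
      · exact qA (v9o M k hk hM (w - M - 1) (by omega)) (v9e M k hk hM (w - M - 1 + 1) (by omega))
          (-1) (by omega) (by omega) (by omega)
      · exact qC (v16 M k hk hM) (v17 M k hk hM) 0
          (by omega) (by omega) (by omega) (by omega) (by omega)
      · exact qC (v10 M k hk hM) (v11 M k hk hM) 0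
          (by omega) (by omega) (by omega) (by omega) (by omega)
      · exact qC (v15o M k hk hM (w - 2 * M - 1) (by omega))
          (v15e M k hk hM (w - 2 * M - 1 + 1) (by omega)) 0
          (by omega) (by omega) (by omega) (by omega) (by omega)
      · exact qA (v8o M k hk hM (4 * M - 3 - w) (by omega))
          (v8e M k hk hM (4 * M - 3 - w + 1) (by omega)) (-1) (by omega) (by omega) (by omega)
      · exact qA (v7 M k hk hM) (v8e M k hk hM 0 (by omega)) (-1)
          (by omega) (by omega) (by omega)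
      · exact qA (v5 M k hk hM) (v6 M k hk hM) (-1) (by omega) (by omega) (by omega)
  · rcases Nat.even_or_odd' i with ⟨w, rfl | rfl⟩
    · rcases (by omega : 2 * w = M - 2 ∨ 2 * w = M ∨ 2 * w = M + 2 ∨ M + 4 ≤ 2 * w ∨
        2 * w + 4 ≤ M) with h | h | h | h | h
      · exact qA (v9o M k hk hM (M - 2) (by omega)) (v10 M k hk hM) 0
          (by omega) (by omega) (by omega)
      · exact qB (v12 M k hk hM) (v13 M k hk hM) 0
          (by omega) (by omega) (by omega) (by omega) (by omega)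
      · exact qA (v13 M k hk hM) (v14e M k hk hM 0 (by omega)) 0 (by omega) (by omega) (by omega)
      · exact qA (v14o M k hk hM (w - k - 2) (by omega))
          (v14e M k hk hM (w - k - 2 + 1) (by omega)) 0 (by omega) (by omega) (by omega)
      · exact qA (v14o M k hk hM (w + 7 * k - 2) (by omega))
          (v14e M k hk hM (w + 7 * k - 2 + 1) (by omega)) 1 (by omega) (by omega) (by omega)
    · rcases (by omega : 2 * w + 1 = 3 * M + 1 ∨ 2 * w + 1 = 3 * M - 1 ∨ 2 * w + 3 ≤ 3 * M - 1 ∨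
        3 * M + 3 ≤ 2 * w + 1) with h | h | h | h
      · exact qC (v2 M k hk hM) (v3 M k hk hM) 0
          (by omega) (by omega) (by omega) (by omega) (by omega)
      · exact qA (v14o M k hk hM (4 * M - 3) (by omega)) (v15e M k hk hM 0 (by omega)) 0
          (by omega) (by omega) (by omega)
      · exact qC (v14e M k hk hM (3 * k - 2 - w) (by omega))
          (v14o M k hk hM (3 * k - 2 - w) (by omega)) 0
          (by omega) (by omega) (by omega) (by omega) (by omega)
      · exact qC (v14e M k hk hM (11 * k - 2 - w) (by omega))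
          (v14o M k hk hM (11 * k - 2 - w) (by omega)) (-1)
          (by omega) (by omega) (by omega) (by omega) (by omega)

/-! ## The case `n = 4` -/

/-- The sequence for the group of order `16`. -/
def F4 (t : ℕ) : ℤ × ℕ :=
  ([(1, 0), (0, 1), (1, 1), (2, 0), (2, 1), (4, 0), (3, 0), (5, 0), (6, 1), (4, 1), (3, 1), (7, 1),
    (6, 0), (7, 0), (5, 1)] : List (ℤ × ℕ)).getD t (1, 0)

lemma table4_elements (i j : ℕ) (hi : i < 8 * 1) (hj : j < 2) (hne : i ≠ 0 ∨ j ≠ 0) :
    Occurs F4 1 i j := by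
  have h : ∀ i : ℕ, i < 8 → ∀ j : ℕ, j < 2 → (i ≠ 0 ∨ j ≠ 0) →
      ∃ t : ℕ, t < 15 ∧ F4 t = ((i : ℤ), j) := by decide
  obtain ⟨t, ht, e⟩ := h i hi j hj hne
  exact ⟨t, ht, 0, by rw [e]; simp, by rw [e]⟩

/-- the condition on a quotient, for `n = 4` -/
def Q4 (i j t : ℕ) (c : ℤ) : Prop :=
  ((F4 t).2 = 0 ∧ (F4 (t + 1)).1 - (F4 t).1 = i + 8 * c ∧ (F4 (t + 1)).2 = j) ∨
  ((F4 t).2 = 1 ∧ ((F4 (t + 1)).1 - (F4 t).1) % 2 = 0 ∧
    (F4 (t + 1)).1 - (F4 t).1 = i + 8 * c ∧ (F4 (t + 1)).2 + j = 1) ∨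
  ((F4 t).2 = 1 ∧ ((F4 (t + 1)).1 - (F4 t).1) % 2 = 1 ∧
    (F4 (t + 1)).1 - (F4 t).1 + 4 = i + 8 * c ∧ (F4 (t + 1)).2 + j = 1)

instance (i j t : ℕ) (c : ℤ) : Decidable (Q4 i j t c) := by unfold Q4; infer_instance

lemma table4_quotients (i j : ℕ) (hi : i < 8 * 1) (hj : j < 2) (hne : i ≠ 0 ∨ j ≠ 0) :
    OccursQuot F4 1 i j := by
  have h : ∀ i : ℕ, i < 8 → ∀ j : ℕ, j < 2 → (i ≠ 0 ∨ j ≠ 0) →
      ∃ t : ℕ, t < 15 ∧ (Q4 i j t (-1) ∨ Q4 i j t 0 ∨ Q4 i j t 1) := by decide
  obtain ⟨t, ht, e⟩ := h i hi j hj hne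
  rcases e with e | e | e
  · exact ⟨t, ht, -1, by simpa [Q4] using e⟩
  · exact ⟨t, ht, 0, by simpa [Q4] using e⟩
  · exact ⟨t, ht, 1, by simpa [Q4] using e⟩

/-! ## The presented group -/

section Presented

variable (n : ℕ)

lemma pow_eight {n : ℕ} (hn : 4 ≤ n) : 2 ^ (n - 1) = 8 * 2 ^ (n - 4) := by
  obtain ⟨m, rfl⟩ := Nat.exists_eq_add_of_le hn
  rw [show 4 + m - 1 = 3 + m by omega, show 4 + m - 4 = m by omega, pow_add]
  norm_num

lemma pow_four {n : ℕ} (hn : 4 ≤ n) : 2 ^ (n - 2) = 4 * 2 ^ (n - 4) := by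
  obtain ⟨m, rfl⟩ := Nat.exists_eq_add_of_le hn
  rw [show 4 + m - 2 = 2 + m by omega, show 4 + m - 4 = m by omega, pow_add]
  norm_num

/-- the generator `a` -/
def ga : ModularGroup n := PresentedGroup.of 0

/-- the generator `b` -/
def gb : ModularGroup n := PresentedGroup.of 1

lemma ga_pow {n : ℕ} (hn : 4 ≤ n) : ga n ^ (8 * 2 ^ (n - 4)) = 1 := by
  have h : PresentedGroup.mk (rels n) (FreeGroup.of 0 ^ (2 ^ (n - 1))) = 1 :=
    PresentedGroup.one_of_mem (by simp [rels])
  rw [map_pow, pow_eight hn] at h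
  exact h

lemma gb_mul : gb n * gb n = 1 := by
  have h : PresentedGroup.mk (rels n) (FreeGroup.of 1 ^ 2) = 1 :=
    PresentedGroup.one_of_mem (by simp [rels])
  rw [map_pow, sq] at h
  exact h

lemma gab {n : ℕ} (hn : 4 ≤ n) :
    gb n * ga n * (gb n)⁻¹ = ga n ^ (1 + 4 * 2 ^ (n - 4)) := by
  have h : PresentedGroup.mk (rels n) (FreeGroup.of 1 * FreeGroup.of 0 * (FreeGroup.of 1)⁻¹ *
      (FreeGroup.of 0 ^ (1 + 2 ^ (n - 2)))⁻¹) = 1 :=
    PresentedGroup.one_of_mem (by simp [rels])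
  rw [map_mul, map_mul, map_mul, map_inv, map_inv, map_pow, pow_four hn] at h
  exact mul_inv_eq_one.mp h

/-- the matrix entry `1 + 4 M` squares to `1` modulo `8 M` -/
lemma unit_sq (M : ℕ) : ((1 + 4 * M : ℕ) : ZMod (8 * M)) * ((1 + 4 * M : ℕ) : ZMod (8 * M)) = 1 := by
  have h : ((8 * M : ℕ) : ZMod (8 * M)) = 0 := ZMod.natCast_self _
  push_cast at h ⊢
  linear_combination (1 + 2 * (M : ZMod (8 * M))) * h

/-- the permutation `x ↦ x + 1` of `ZMod (8 M)` -/
def permA (M : ℕ) : Equiv.Perm (ZMod (8 * M)) := Equiv.addRight 1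

/-- the permutation `x ↦ (1 + 4 M) x` of `ZMod (8 M)` -/
def permB (M : ℕ) : Equiv.Perm (ZMod (8 * M)) :=
  ⟨fun x => ((1 + 4 * M : ℕ) : ZMod (8 * M)) * x, fun x => ((1 + 4 * M : ℕ) : ZMod (8 * M)) * x,
    fun x => by beta_reduce; rw [← mul_assoc, unit_sq, one_mul],
    fun x => by beta_reduce; rw [← mul_assoc, unit_sq, one_mul]⟩

lemma permA_pow (M k : ℕ) (x : ZMod (8 * M)) : (permA M ^ k) x = x + k := by
  induction k with
  | zero => simp
  | succ k ih =>
    rw [pow_succ', Equiv.Perm.mul_apply, ih]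
    simp only [permA, Equiv.coe_addRight]
    push_cast
    ring

lemma permB_apply (M : ℕ) (x : ZMod (8 * M)) : permB M x = ((1 + 4 * M : ℕ) : ZMod (8 * M)) * x :=
  rfl

/-- The action of the modular group on `ZMod (8 M)`. -/
noncomputable def rho {n : ℕ} (hn : 4 ≤ n) :
    ModularGroup n →* Equiv.Perm (ZMod (8 * 2 ^ (n - 4))) :=
  PresentedGroup.toGroup (f := ![permA (2 ^ (n - 4)), permB (2 ^ (n - 4))]) (by
    intro r hr
    simp only [rels, Set.mem_insert_iff, Set.mem_singleton_iff] at hr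
    rcases hr with rfl | rfl | rfl
    · rw [map_pow, FreeGroup.lift_apply_of]
      ext1 x
      simp only [Matrix.cons_val_zero]
      rw [permA_pow, pow_eight hn, ZMod.natCast_self, add_zero, Equiv.Perm.one_apply]
    · rw [map_pow, FreeGroup.lift_apply_of]
      ext1 x
      change (permB (2 ^ (n - 4)) ^ 2) x = _
      rw [sq, Equiv.Perm.mul_apply, permB_apply, permB_apply, ← mul_assoc, unit_sq, one_mul,
        Equiv.Perm.one_apply]
    · rw [map_mul, map_mul, map_mul, map_inv, map_inv, map_pow, FreeGroup.lift_apply_of,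
        FreeGroup.lift_apply_of]
      rw [mul_inv_eq_one, mul_inv_eq_iff_eq_mul]
      ext1 x
      simp only [Matrix.cons_val_zero, Matrix.cons_val_one]
      rw [Equiv.Perm.mul_apply, Equiv.Perm.mul_apply, permA_pow, permB_apply, permB_apply,
        pow_four hn]
      simp only [permA, Equiv.coe_addRight]
      ring)

lemma rho_a {n : ℕ} (hn : 4 ≤ n) : rho hn (ga n) = permA (2 ^ (n - 4)) := by
  simp [rho, ga]

lemma rho_b {n : ℕ} (hn : 4 ≤ n) : rho hn (gb n) = permB (2 ^ (n - 4)) := by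
  simp [rho, gb]

/-- every element has the form `a^i b^j` -/
lemma exists_form {n : ℕ} (hn : 4 ≤ n) (x : ModularGroup n) :
    ∃ i j : ℕ, i < 8 * 2 ^ (n - 4) ∧ j < 2 ∧ x = ga n ^ (i : ℤ) * gb n ^ j := by
  have hM : 0 < 2 ^ (n - 4) := by positivity
  have h1 : ∃ i : ℤ, ∃ j : ℕ, x = ga n ^ i * gb n ^ j := by
    have hx : x ∈ Subgroup.closure (Set.range (PresentedGroup.of (rels := rels n))) := by
      rw [PresentedGroup.closure_range_of]; trivial
    have hbinv : (gb n)⁻¹ = gb n := inv_eq_of_mul_eq_one_left (gb_mul n)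
    have hbstep : ∀ y : ModularGroup n, (∃ i : ℤ, ∃ j : ℕ, y = ga n ^ i * gb n ^ j) →
        ∃ i : ℤ, ∃ j : ℕ, gb n * y = ga n ^ i * gb n ^ j := by
      rintro y ⟨i, j, rfl⟩
      refine ⟨((1 + 4 * 2 ^ (n - 4) : ℕ) : ℤ) * i, j + 1, ?_⟩
      rw [← conj_zpow_rel (2 ^ (n - 4)) (ga n) (gb n) (gab hn) i, pow_succ']
      group
    induction hx using Subgroup.closure_induction_left with
    | one => exact ⟨0, 0, by simp⟩
    | mul_left y hy z hz ih =>
      obtain ⟨s, rfl⟩ := hy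
      fin_cases s
      · obtain ⟨i, j, rfl⟩ := ih
        refine ⟨1 + i, j, ?_⟩
        rw [zpow_add, zpow_one, mul_assoc]; rfl
      · exact hbstep _ ih
    | inv_mul_cancel y hy z hz ih =>
      obtain ⟨s, rfl⟩ := hy
      fin_cases s
      · obtain ⟨i, j, rfl⟩ := ih
        refine ⟨-1 + i, j, ?_⟩
        rw [zpow_add, zpow_neg_one, mul_assoc]; rfl
      · have h2 := hbstep _ ih
        have h3 : ((PresentedGroup.of (rels := rels n) (1 : Fin 2)))⁻¹ = gb n := hbinv
        change ∃ i : ℤ, ∃ j : ℕ, ((PresentedGroup.of (rels := rels n) (1 : Fin 2)))⁻¹ * z = _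
        rw [h3]
        exact h2
  obtain ⟨i, j, rfl⟩ := h1
  refine ⟨(i % (8 * 2 ^ (n - 4) : ℕ)).toNat, j % 2, ?_, Nat.mod_lt _ (by norm_num), ?_⟩
  · have h := Int.emod_lt_of_pos i (b := (8 * 2 ^ (n - 4) : ℕ)) (by positivity)
    have h' := Int.emod_nonneg i (b := (8 * 2 ^ (n - 4) : ℕ)) (by positivity)
    omega
  · have h' := Int.emod_nonneg i (b := (8 * 2 ^ (n - 4) : ℕ)) (by positivity)
    rw [Int.toNat_of_nonneg h']
    congr 1
    · have e := zpow_mod (2 ^ (n - 4)) (ga n) (ga_pow hn) (i % (8 * 2 ^ (n - 4) : ℕ))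
        (i / (8 * 2 ^ (n - 4) : ℕ))
      rw [← e]
      congr 1
      have := Int.emod_add_mul_ediv i (8 * 2 ^ (n - 4) : ℕ)
      push_cast at this ⊢
      linarith
    · conv_lhs => rw [← Nat.mod_add_div j 2]
      rw [pow_add, pow_mul, sq, gb_mul, one_pow, mul_one]

/-- the group has order `16 M = 2^n` -/
lemma card_eq {n : ℕ} (hn : 4 ≤ n) : Nat.card (ModularGroup n) = 16 * 2 ^ (n - 4) := by
  set M := 2 ^ (n - 4) with hMdef
  have hM : 0 < M := by positivity
  have : NeZero (8 * M) := ⟨by omega⟩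
  let e : Fin (8 * M) × Fin 2 → ModularGroup n := fun p => ga n ^ (p.1 : ℕ) * gb n ^ (p.2 : ℕ)
  have hinj : Function.Injective e := by
    rintro ⟨i, j⟩ ⟨i', j'⟩ h
    have hr := congrArg (rho hn) h
    simp only [e, map_mul, map_pow, rho_a, rho_b] at hr
    have hB0 : ∀ j : ℕ, (permB M ^ j) 0 = 0 := by
      intro j
      induction j with
      | zero => simp
      | succ j ih => rw [pow_succ', Equiv.Perm.mul_apply, ih, permB_apply, mul_zero]
    have h0 := congrArg (fun f : Equiv.Perm (ZMod (8 * M)) => f 0) hr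
    simp only [Equiv.Perm.mul_apply] at h0
    rw [hB0, hB0, permA_pow, permA_pow, zero_add, zero_add] at h0
    have hi : i = i' := by
      apply Fin.ext
      have := congrArg ZMod.val h0
      rwa [ZMod.val_natCast_of_lt i.2, ZMod.val_natCast_of_lt i'.2] at this
    subst hi
    have h1 := congrArg (fun f : Equiv.Perm (ZMod (8 * M)) => f 1) hr
    simp only [Equiv.Perm.mul_apply] at h1
    rw [permA_pow, permA_pow] at h1
    have h2 := add_right_cancel h1
    have h3 : ((1 + 4 * M : ℕ) : ZMod (8 * M)) ≠ ((1 : ℕ) : ZMod (8 * M)) := by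
      intro h
      have h4 := congrArg ZMod.val h
      rw [ZMod.val_natCast_of_lt (by omega), ZMod.val_natCast_of_lt (by omega)] at h4
      omega
    have hj : j = j' := by
      fin_cases j <;> fin_cases j'
      · rfl
      · exfalso
        simp only [pow_zero, pow_one, Equiv.Perm.one_apply, permB_apply, mul_one] at h2
        apply h3
        rw [← h2]; simp
      · exfalso
        simp only [pow_zero, pow_one, Equiv.Perm.one_apply, permB_apply, mul_one] at h2
        apply h3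
        rw [h2]; simp
      · rfl
    rw [hj]
  have hsurj : Function.Surjective e := by
    intro x
    obtain ⟨i, j, hi, hj, rfl⟩ := exists_form hn x
    exact ⟨(⟨i, hi⟩, ⟨j, hj⟩), by simp [e]⟩
  have := Nat.card_congr (Equiv.ofBijective e ⟨hinj, hsurj⟩)
  rw [← this, Nat.card_prod, Nat.card_eq_fintype_card, Nat.card_eq_fintype_card, Fintype.card_fin,
    Fintype.card_fin]
  ring

end Presented

/-- **Theorem.** For every `n ≥ 4` the modular group `M_{2^n}` is R-sequenceable. -/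
theorem result (n : ℕ) (hn : 4 ≤ n) : RSequenceable (ModularGroup n) := by
  have hM : 1 ≤ 2 ^ (n - 4) := Nat.one_le_two_pow
  by_cases h4 : n = 4
  · subst h4
    exact rseq_of_table (2 ^ (4 - 4)) (ga 4) (gb 4) hM (ga_pow hn) (gb_mul 4) (gab hn) (card_eq hn)
      (exists_form hn) F4 rfl table4_elements table4_quotients
  · have hk : 1 ≤ 2 ^ (n - 5) := Nat.one_le_two_pow
    have h2 : 2 ^ (n - 4) = 2 * 2 ^ (n - 5) := by
      rw [show n - 4 = (n - 5) + 1 by omega, pow_succ]; ring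
    refine rseq_of_table (2 ^ (n - 4)) (ga n) (gb n) hM (ga_pow hn) (gb_mul n) (gab hn) (card_eq hn)
      (exists_form hn) (F (2 ^ (n - 4))) ?_ ?_ ?_
    · rw [v17 _ _ hk h2]
      have := v1e _ _ hk h2 0 (by omega)
      rw [mul_zero] at this
      rw [this]
      simp
    · intro i j hi hj hne
      exact table_elements _ _ hk h2 i j hi hj hne
    · intro i j hi hj hne
      exact table_quotients _ _ hk h2 i j hi hj hne

end Pool.Agent.Results.MP_011385_al.ModularTwoGroups
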